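import Pool.Agent.TH99.LI.HW

set_option autoImplicit false

/-!
# Non-vanishing for positive kernels
-/

namespace Pool.Agent.TH99.LI

open Complex Filter Topology Metric

/-- a positive even kernel: no real zeros -/
theorem ne_of_pos {D : Pool.Agent.H471R3.GJ.Dat} {r : ℕ} {F : ℂ → ℂ} {c K : ℝ}
    (h : Pool.Agent.W355.GJ.Crit.Scale D r F c K)
    (hg : ∀ k, 0 < Pool.Agent.H471R3.GJ.gam D k) {β : ℝ} (hβ : 0 < β) : F β ≠ 0 := by
  obtain ⟨hd, hXX, -, h0⟩ := Pool.Agent.W355.GJ.T.b1T D h.isL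
  set x : ℝ := (β / c) ^ 2 with hx
  have hc0 := h.hc
  have hx0 : 0 < x := by positivity
  have hs := Complex.hasSum_taylorSeries_of_entire hd 0 (x : ℂ)
  have hs' := Complex.hasSum_re hs
  have hterm : ∀ n : ℕ, (((n.factorial : ℂ))⁻¹ • ((x : ℂ) - 0) ^ n •
      iteratedDeriv n (Pool.Agent.H471R3.GJ.FF D) 0).re =
      (n.factorial : ℝ)⁻¹ * (x ^ n * Pool.Agent.H471R3.GJ.gam D n) := by
    intro n
    rw [h0 n, sub_zero, smul_eq_mul, smul_eq_mul]
    have : ((n.factorial : ℂ))⁻¹ * ((x : ℂ) ^ n * ((Pool.Agent.H471R3.GJ.gam D n : ℝ) : ℂ)) =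
        (((n.factorial : ℝ)⁻¹ * (x ^ n * Pool.Agent.H471R3.GJ.gam D n) : ℝ) : ℂ) := by
      push_cast
      ring
    rw [this, ofReal_re]
  simp only [hterm] at hs'
  have hpos : 0 < (Pool.Agent.H471R3.GJ.FF D x).re := by
    rw [← hs'.tsum_eq]
    refine hs'.summable.tsum_pos (fun n => ?_) 0 ?_
    · have := hg n
      positivity
    · have := hg 0
      positivity
  intro hF
  have h1 := h.hX ((β / c : ℝ) : ℂ)
  rw [← hXX] at h1
  have e1 : ((c : ℂ)) * ((β / c : ℝ) : ℂ) = (β : ℂ) := by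
    have : (c : ℂ) ≠ 0 := by exact_mod_cast hc0.ne'
    push_cast
    field_simp
  have e2 : (((β / c : ℝ) : ℂ)) ^ 2 = (x : ℂ) := by
    rw [hx]
    push_cast
    rfl
  rw [e1, hF, mul_zero, e2] at h1
  have h2 : (((β / c : ℝ) : ℂ)) ^ r ≠ 0 := by
    refine pow_ne_zero _ ?_
    have : β / c ≠ 0 := by positivity
    exact_mod_cast this
  have h3 := (mul_eq_zero.1 h1).resolve_left h2
  rw [h3] at hpos
  simp at hpos

end Pool.Agent.TH99.LI
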