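import Mathlib

set_option autoImplicit false

/-!
# Sets of Bohr recurrence
-/

namespace Pool.Agent.TH99.LI

open Finset Filter Topology

/-- A set `A` of natural numbers is a set of Bohr recurrence: for finitely many complex numbers `w` of
absolute value one there are arbitrarily large `n ∈ A` with all `w ^ n` as close to `1` as we like. -/
def BohrRec (A : Set ℕ) : Prop :=
  ∀ W : Finset ℂ, (∀ w ∈ W, ‖w‖ = 1) → ∀ ε : ℝ, 0 < ε → ∀ N : ℕ,
    ∃ n ∈ A, N ≤ n ∧ ∀ w ∈ W, ‖w ^ n - 1‖ < ε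

/-- The differences of an infinite set. -/
def Diffs (S : Set ℕ) : Set ℕ := {n | ∃ s ∈ S, ∃ t ∈ S, t < s ∧ n = s - t}

/-- The `k`-th powers of the positive integers. -/
def Powers (k : ℕ) : Set ℕ := {n | ∃ a : ℕ, 0 < a ∧ n = a ^ k}

theorem bohr_diffs {S : Set ℕ} (hS : S.Infinite) : BohrRec (Diffs S) := by
  intro W hW ε hε N
  set u : ℕ → ℕ := Nat.nth (· ∈ S) with hu
  have hS' : (Set.ofPred (· ∈ S)).Infinite := hS
  have hum : StrictMono u := Nat.nth_strictMono hS'
  have huS : ∀ k, u k ∈ S := fun k => Nat.nth_mem_of_infinite hS' k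
  set x : ℕ → (W → ℂ) := fun k w => (w : ℂ) ^ (u k) with hx
  have hK : IsCompact (Set.pi Set.univ fun _ : W => Metric.closedBall (0 : ℂ) 1) :=
    isCompact_univ_pi fun _ => isCompact_closedBall _ _
  have hxK : ∀ k, x k ∈ Set.pi Set.univ fun _ : W => Metric.closedBall (0 : ℂ) 1 := by
    intro k w _
    rw [Metric.mem_closedBall, dist_zero_right, hx]
    simp only [norm_pow, hW w w.2, one_pow, le_refl]
  obtain ⟨a, -, φ, hφ, hlim⟩ := hK.tendsto_subseq hxK
  have h1 := (Metric.tendsto_nhds.1 hlim (ε / 2) (by positivity))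
  obtain ⟨k0, hk0⟩ := eventually_atTop.1 h1
  have h2 := hk0 k0 le_rfl
  have h3 := hk0 (k0 + N + 1) (by omega)
  have hlt : φ k0 + N + 1 ≤ φ (k0 + N + 1) := by
    have : ∀ j, φ k0 + j ≤ φ (k0 + j) := by
      intro j
      induction j with
      | zero => simp
      | succ j ih =>
        have := hφ (Nat.lt_succ_self (k0 + j))
        have e : k0 + (j + 1) = (k0 + j) + 1 := by ring
        rw [e]
        have h5 : φ (k0 + j) < φ (k0 + j + 1) := this
        omega
    have := this (N + 1)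
    have e : k0 + (N + 1) = k0 + N + 1 := by ring
    rw [e] at this
    omega
  have hlt2 : u (φ k0) + N + 1 ≤ u (φ (k0 + N + 1)) := by
    have h5 : ∀ i j, u i + j ≤ u (i + j) := by
      intro i j
      induction j with
      | zero => simp
      | succ j ih =>
        have h6 : u (i + j) < u (i + j + 1) := hum (Nat.lt_succ_self _)
        have e : i + (j + 1) = i + j + 1 := by ring
        rw [e]
        omega
    have h6 := h5 (φ k0) (N + 1)
    have h7 : u (φ k0 + (N + 1)) ≤ u (φ (k0 + N + 1)) := hum.monotone (by omega)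
    omega
  set t := u (φ k0) with ht
  set s := u (φ (k0 + N + 1)) with hs
  refine ⟨s - t, ⟨s, huS _, t, huS _, by omega, rfl⟩, by omega, fun w hw => ?_⟩
  have h4 : ‖w ^ s - w ^ t‖ < ε := by
    have h5 : dist (x (φ (k0 + N + 1))) (x (φ k0)) < ε := by
      calc dist (x (φ (k0 + N + 1))) (x (φ k0)) ≤ dist (x (φ (k0 + N + 1))) a + dist (x (φ k0)) a :=
            dist_triangle_right _ _ _
        _ < ε / 2 + ε / 2 := add_lt_add h3 h2
        _ = ε := by ring
    have h6 := (dist_pi_lt_iff hε).1 h5 ⟨w, hw⟩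
    rwa [dist_eq_norm] at h6
  have h5 : w ^ s - w ^ t = w ^ t * (w ^ (s - t) - 1) := by
    rw [mul_sub, ← pow_add, mul_one]
    congr 2
    omega
  rw [h5, norm_mul, norm_pow, hW w hw, one_pow, one_mul] at h4
  exact h4

/-- distance of `e^{it}` to one -/
noncomputable def Nn (t : ℝ) : ℝ := ‖Complex.exp (t * Complex.I) - 1‖

theorem Nn_nonneg (t : ℝ) : 0 ≤ Nn t := norm_nonneg _

theorem Nn_zero : Nn 0 = 0 := by simp [Nn]

theorem Nn_add (s t : ℝ) : Nn (s + t) ≤ Nn s + Nn t := by
  unfold Nn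
  have e : Complex.exp (((s + t : ℝ) : ℂ) * Complex.I) - 1 =
      Complex.exp (s * Complex.I) * (Complex.exp (t * Complex.I) - 1) +
        (Complex.exp (s * Complex.I) - 1) := by
    push_cast
    rw [add_mul, Complex.exp_add]
    ring
  rw [e]
  refine (norm_add_le _ _).trans ?_
  rw [norm_mul, Complex.norm_exp_ofReal_mul_I, one_mul, add_comm]

theorem Nn_neg (t : ℝ) : Nn (-t) = Nn t := by
  unfold Nn
  have e : Complex.exp (((-t : ℝ) : ℂ) * Complex.I) - 1 =
      -(Complex.exp (((-t : ℝ) : ℂ) * Complex.I) * (Complex.exp (t * Complex.I) - 1)) := by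
    rw [mul_sub, ← Complex.exp_add]
    push_cast
    have : -(t : ℂ) * Complex.I + t * Complex.I = 0 := by ring
    rw [this, Complex.exp_zero]
    ring
  rw [e, norm_neg, norm_mul, Complex.norm_exp_ofReal_mul_I, one_mul]

theorem Nn_nat (t : ℝ) (n : ℕ) : Nn (n * t) ≤ n * Nn t := by
  induction n with
  | zero => simp [Nn_zero]
  | succ n ih =>
    have h := Nn_add (n * t) t
    have e : ((n + 1 : ℕ) : ℝ) * t = n * t + t := by push_cast; ring
    rw [e]
    push_cast
    linarith

theorem Nn_int (t : ℝ) (c : ℤ) : Nn (c * t) ≤ |(c : ℝ)| * Nn t := by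
  rcases le_total 0 c with h | h
  · obtain ⟨n, rfl⟩ := Int.eq_ofNat_of_zero_le h
    have := Nn_nat t n
    simpa using this
  · obtain ⟨n, hn⟩ := Int.eq_ofNat_of_zero_le (neg_nonneg.2 h)
    have e : c = -(n : ℤ) := by
      have : -c = (n : ℤ) := hn
      omega
    rw [e]
    have h1 := Nn_nat t n
    have e2 : (((-(n : ℤ) : ℤ)) : ℝ) * t = -((n : ℝ) * t) := by push_cast; ring
    rw [e2, Nn_neg]
    simpa using h1

theorem Nn_sum {ι : Type*} (s : Finset ι) (f : ι → ℝ) : Nn (∑ i ∈ s, f i) ≤ ∑ i ∈ s, Nn (f i) := by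
  classical
  induction s using Finset.induction_on with
  | empty => simp [Nn_zero]
  | insert a s ha ih =>
    rw [Finset.sum_insert ha, Finset.sum_insert ha]
    exact (Nn_add _ _).trans (by linarith)

theorem norm_one_exp {w : ℂ} (hw : ‖w‖ = 1) : w = Complex.exp (Complex.arg w * Complex.I) := by
  have := Complex.norm_mul_exp_arg_mul_I w
  rw [hw] at this
  simpa using this.symm

theorem exp_sub_le (s t : ℝ) : ‖Complex.exp (s * Complex.I) - Complex.exp (t * Complex.I)‖ = Nn (s - t) := by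
  unfold Nn
  have e : Complex.exp (s * Complex.I) - Complex.exp (t * Complex.I) =
      Complex.exp (t * Complex.I) * (Complex.exp (((s - t : ℝ) : ℂ) * Complex.I) - 1) := by
    rw [mul_sub, ← Complex.exp_add]
    push_cast
    ring_nf
  rw [e, norm_mul, Complex.norm_exp_ofReal_mul_I, one_mul]

/-- finite differences of `x ^ k` along an arithmetic progression -/
theorem diff_pow (k : ℕ) (a b : ℝ) (ha : a ≠ 0) :
    ∑ j ∈ range (k + 1), (((-1 : ℤ) ^ (k - j) * (k.choose j : ℤ) : ℤ) : ℝ) * (a * j + b) ^ k =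
      k.factorial * a ^ k := by
  have h1 := congrFun (fwdDiff_iter_eq_factorial (R := ℝ) (n := k)) (b / a)
  have h2 := fwdDiff_iter_eq_sum_shift (M := ℝ) (G := ℝ) (1 : ℝ) (fun x : ℝ => x ^ k) k (b / a)
  rw [h2] at h1
  have h3 : ((k.factorial : ℝ → ℝ) (b / a)) = (k.factorial : ℝ) := rfl
  rw [h3] at h1
  rw [← h1, Finset.sum_mul]
  refine Finset.sum_congr rfl fun j _ => ?_
  have e : a * (j : ℝ) + b = a * (b / a + j • (1 : ℝ)) := by
    field_simp
    simp
    ring
  rw [e, mul_pow, zsmul_eq_mul]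
  ring

theorem sum_choose (k : ℕ) (hk : 1 ≤ k) :
    ∑ j ∈ range (k + 1), (((-1 : ℤ) ^ (k - j) * (k.choose j : ℤ) : ℤ) : ℝ) = 0 := by
  have h := (Commute.all (1 : ℝ) (-1)).add_pow k
  rw [add_neg_cancel, zero_pow (by omega)] at h
  rw [h]
  refine Finset.sum_congr rfl fun j _ => ?_
  push_cast
  ring

theorem bohr_powers {k : ℕ} (hk : 1 ≤ k) : BohrRec (Powers k) := by
  intro W hW ε hε N
  classical
  -- angles
  set M : ℕ := N + 1 with hM
  set θ : W → ℝ := fun w => Complex.arg (w : ℂ) * (M : ℝ) ^ k / k.factorial with hθ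
  set δ : ℝ := ε / (2 * ((k + 1) * 2 ^ k)) with hδ
  have hδ0 : 0 < δ := by positivity
  set f : ℕ → (W → ℂ) := fun x w => Complex.exp (((θ w * (x : ℝ) ^ k : ℝ) : ℂ) * Complex.I) with hf
  have hK : IsCompact (Set.pi Set.univ fun _ : W => Metric.closedBall (0 : ℂ) 1) :=
    isCompact_univ_pi fun _ => isCompact_closedBall _ _
  have hfK : ∀ x, f x ∈ Set.pi Set.univ fun _ : W => Metric.closedBall (0 : ℂ) 1 := by
    intro x w _
    rw [Metric.mem_closedBall, dist_zero_right, hf]
    simp only [Complex.norm_exp_ofReal_mul_I, le_refl]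
  obtain ⟨T, -, hTfin, hcov⟩ := hK.finite_cover_balls (e := δ / 2) (by positivity)
  have hch : ∀ x, ∃ c : T, dist (f x) c < δ / 2 := by
    intro x
    have := hcov (hfK x)
    rw [Set.mem_iUnion₂] at this
    obtain ⟨c, hc, hd⟩ := this
    exact ⟨⟨c, hc⟩, hd⟩
  choose C hC using hch
  have hfinT : Finite T := hTfin
  obtain ⟨a, ha, b, c, hmono⟩ := Combinatorics.exists_mono_homothetic_copy (range (k + 1)) C
  have hclose : ∀ j ∈ range (k + 1), ∀ w : W,
      Nn (θ w * ((a : ℝ) * j + b) ^ k - θ w * (b : ℝ) ^ k) < δ := by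
    intro j hj w
    have h1 := hC (a • j + b)
    have h2 := hC (a • 0 + b)
    rw [hmono j hj] at h1
    rw [hmono 0 (by simp)] at h2
    have h3 : dist (f (a • j + b)) (f (a • 0 + b)) < δ := by
      calc _ ≤ dist (f (a • j + b)) c + dist (f (a • 0 + b)) c := dist_triangle_right _ _ _
        _ < δ / 2 + δ / 2 := add_lt_add h1 h2
        _ = δ := by ring
    have h4 := (dist_pi_lt_iff hδ0).1 h3 w
    rw [dist_eq_norm] at h4
    simp only [hf] at h4
    rw [exp_sub_le] at h4
    simpa using h4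
  refine ⟨(M * a) ^ k, ⟨M * a, by positivity, rfl⟩, ?_, fun w hw => ?_⟩
  · calc N ≤ M := by omega
      _ ≤ M * a := Nat.le_mul_of_pos_right _ ha
      _ ≤ (M * a) ^ k := Nat.le_self_pow (by omega) _
  · set w' : W := ⟨w, hw⟩ with hw'
    have e1 : w ^ ((M * a) ^ k) = Complex.exp (((θ w' * (k.factorial * (a : ℝ) ^ k) : ℝ) : ℂ) * Complex.I) := by
      conv_lhs => rw [norm_one_exp (hW w hw)]
      rw [← Complex.exp_nat_mul]
      congr 1
      rw [hθ]
      have : (k.factorial : ℂ) ≠ 0 := by exact_mod_cast k.factorial_ne_zero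
      push_cast
      rw [hw']
      field_simp
      ring
    have e2 : Nn (θ w' * (k.factorial * (a : ℝ) ^ k)) < ε := by
      have ha' : (a : ℝ) ≠ 0 := by positivity
      have e3 : θ w' * (k.factorial * (a : ℝ) ^ k) =
          ∑ j ∈ range (k + 1), (((-1 : ℤ) ^ (k - j) * (k.choose j : ℤ) : ℤ) : ℝ) *
            (θ w' * ((a : ℝ) * j + b) ^ k - θ w' * (b : ℝ) ^ k) := by
        rw [← diff_pow k a b ha', Finset.mul_sum]
        have e4 : ∑ j ∈ range (k + 1), (((-1 : ℤ) ^ (k - j) * (k.choose j : ℤ) : ℤ) : ℝ) *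
            (θ w' * ((a : ℝ) * j + b) ^ k - θ w' * (b : ℝ) ^ k) =
            ∑ j ∈ range (k + 1), θ w' * ((((-1 : ℤ) ^ (k - j) * (k.choose j : ℤ) : ℤ) : ℝ) *
              ((a : ℝ) * j + b) ^ k) -
            (∑ j ∈ range (k + 1), (((-1 : ℤ) ^ (k - j) * (k.choose j : ℤ) : ℤ) : ℝ)) *
              (θ w' * (b : ℝ) ^ k) := by
          rw [Finset.sum_mul, ← Finset.sum_sub_distrib]
          refine Finset.sum_congr rfl fun j _ => ?_
          ring
        rw [e4, sum_choose k hk, zero_mul, sub_zero]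
      rw [e3]
      calc Nn _ ≤ ∑ j ∈ range (k + 1), Nn ((((-1 : ℤ) ^ (k - j) * (k.choose j : ℤ) : ℤ) : ℝ) *
            (θ w' * ((a : ℝ) * j + b) ^ k - θ w' * (b : ℝ) ^ k)) := Nn_sum _ _
        _ ≤ ∑ _j ∈ range (k + 1), 2 ^ k * δ := by
            refine Finset.sum_le_sum fun j hj => (Nn_int _ _).trans ?_
            have h5 : |(((-1 : ℤ) ^ (k - j) * (k.choose j : ℤ) : ℤ) : ℝ)| ≤ 2 ^ k := by
              push_cast
              rw [abs_mul, abs_pow, abs_neg, abs_one, one_pow, one_mul, Nat.abs_cast]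
              exact_mod_cast Nat.choose_le_two_pow k j
            exact mul_le_mul h5 (hclose j hj w').le (Nn_nonneg _) (by positivity)
        _ = ε / 2 := by
            rw [Finset.sum_const, card_range, nsmul_eq_mul, hδ]
            push_cast
            field_simp
        _ < ε := by linarith
    rw [e1]
    exact e2

end Pool.Agent.TH99.LI
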