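import Mathlib

set_option autoImplicit false

/-!
# Taylor coefficients of logarithmic derivatives on the unit disc
-/

namespace Pool.Agent.TH99.LI

open Complex Filter Topology Metric

/-- the `n`-th Taylor coefficient at `0` of the logarithmic derivative -/
noncomputable def cf (φ : ℂ → ℂ) (n : ℕ) : ℂ := iteratedDeriv n (logDeriv φ) 0 / n.factorial

/-- the map from the unit disc to the half-plane `Re > 0` -/
noncomputable def T (β : ℝ) (z : ℂ) : ℂ := β * (1 + z) / (1 - z)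

theorem cf_congr {φ ψ : ℂ → ℂ} (h : φ =ᶠ[𝓝 0] ψ) (n : ℕ) : cf φ n = cf ψ n := by
  unfold cf
  have h1 : logDeriv φ =ᶠ[𝓝 0] logDeriv ψ := by
    unfold logDeriv
    exact h.deriv.div h
  rw [h1.iteratedDeriv_eq]

theorem cf_mul {φ ψ : ℂ → ℂ} (h1 : AnalyticAt ℂ φ 0) (h2 : AnalyticAt ℂ ψ 0) (h3 : φ 0 ≠ 0)
    (h4 : ψ 0 ≠ 0) (n : ℕ) : cf (fun z => φ z * ψ z) n = cf φ n + cf ψ n := by
  unfold cf
  have e : logDeriv (fun z => φ z * ψ z) =ᶠ[𝓝 0] fun z => logDeriv φ z + logDeriv ψ z := by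
    have a1 := h1.eventually_analyticAt
    have a2 := h2.eventually_analyticAt
    have a3 := h1.continuousAt.eventually_ne h3
    have a4 := h2.continuousAt.eventually_ne h4
    filter_upwards [a1, a2, a3, a4] with z b1 b2 b3 b4
    exact logDeriv_mul z b3 b4 b1.differentiableAt b2.differentiableAt
  have hl1 : AnalyticAt ℂ (logDeriv φ) 0 := h1.deriv.div h1 h3
  have hl2 : AnalyticAt ℂ (logDeriv ψ) 0 := h2.deriv.div h2 h4
  rw [e.iteratedDeriv_eq, iteratedDeriv_fun_add hl1.contDiffAt hl2.contDiffAt, add_div]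

theorem cf_const (c : ℂ) (n : ℕ) : cf (fun _ => c) n = 0 := by
  unfold cf
  have : logDeriv (fun _ : ℂ => c) = fun _ => 0 := by
    funext z
    simp [logDeriv]
  rw [this]
  simp

theorem cf_lin (q : ℂ) (n : ℕ) : cf (fun z => 1 - q * z) n = -q ^ (n + 1) := by
  unfold cf
  have e : logDeriv (fun z => 1 - q * z) = fun z => -q * ((-q) * z + 1)⁻¹ := by
    funext z
    have h1 : HasDerivAt (fun z : ℂ => 1 - q * z) (-q) z := by
      have := ((hasDerivAt_id z).const_mul q).const_sub 1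
      simpa using this
    rw [logDeriv_apply, h1.deriv, div_eq_mul_inv]
    congr 2
    ring
  rw [e, iteratedDeriv_eq_iterate]
  have h2 : (deriv^[n] fun z : ℂ => -q * (-q * z + 1)⁻¹) = fun z => -q * (deriv^[n] (fun z : ℂ => (-q * z + 1)⁻¹)) z := by
    rw [← iteratedDeriv_eq_iterate, ← iteratedDeriv_eq_iterate]
    funext z
    exact iteratedDeriv_const_mul_field (-q) _
  rw [h2]
  simp only
  rw [iter_deriv_inv_linear]
  have hn : (n.factorial : ℂ) ≠ 0 := by exact_mod_cast n.factorial_ne_zero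
  simp only [mul_zero, zero_add, one_zpow, mul_one]
  field_simp
  rw [neg_pow q n]
  have : ((-1 : ℂ) ^ n) * (-1) ^ n = 1 := by
    rw [← pow_add, ← two_mul, pow_mul]; simp
  linear_combination (-(q * q ^ n)) * this

theorem an_lin (q : ℂ) : AnalyticAt ℂ (fun z : ℂ => 1 - q * z) 0 := by fun_prop

theorem an_T (β : ℝ) : AnalyticAt ℂ (T β) 0 := by
  unfold T
  refine AnalyticAt.div (by fun_prop) (by fun_prop) (by simp)

theorem T_zero (β : ℝ) : T β 0 = β := by simp [T]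

theorem cf_T {β : ℝ} (hβ : 0 < β) (n : ℕ) : cf (T β) n = 1 + (-1) ^ n := by
  have h0 : ∀ᶠ z : ℂ in 𝓝 0, 1 - 1 * z ≠ 0 :=
    (an_lin 1).continuousAt.eventually_ne (by simp)
  have e : (fun z => T β z * (1 - 1 * z)) =ᶠ[𝓝 0] fun z => (β : ℂ) * (1 - (-1) * z) := by
    filter_upwards [h0] with z hz
    unfold T
    have hz' : 1 - z ≠ 0 := by simpa using hz
    field_simp
    ring
  have h1 := cf_mul (an_T β) (an_lin 1) (by rw [T_zero]; exact_mod_cast hβ.ne') (by simp) n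
  have h2 := cf_mul (φ := fun _ => (β : ℂ)) (by fun_prop) (an_lin (-1)) (by exact_mod_cast hβ.ne')
    (by simp) n
  rw [cf_congr e, h2, cf_const, cf_lin, cf_lin] at h1
  rw [pow_succ] at h1
  simp only [one_pow] at h1
  linear_combination -h1

theorem cf_pow {φ : ℂ → ℂ} (h1 : AnalyticAt ℂ φ 0) (h3 : φ 0 ≠ 0) (k n : ℕ) :
    cf (fun z => φ z ^ k) n = k * cf φ n := by
  induction k with
  | zero =>
    have : (fun z => φ z ^ 0) = fun _ => (1 : ℂ) := by funext z; simp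
    rw [this, cf_const]
    simp
  | succ k ih =>
    have : (fun z => φ z ^ (k + 1)) = fun z => φ z ^ k * φ z := by
      funext z; rw [pow_succ]
    rw [this, cf_mul (φ := fun z => φ z ^ k) (h1.pow k) h1 (pow_ne_zero _ h3) h3, ih]
    push_cast
    ring

/-- the quotient attached to a zero `x = w ^ 2` -/
noncomputable def qq (β : ℝ) (w : ℂ) : ℂ := (w + β) / (w - β)

theorem cf_T2 {β : ℝ} {w : ℂ} (h1 : w ≠ β) (h2 : w ≠ -β) (n : ℕ) :
    cf (fun z => T β z ^ 2 - w ^ 2) n = 2 - qq β w ^ (n + 1) - (qq β w)⁻¹ ^ (n + 1) := by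
  have h0 : ∀ᶠ z : ℂ in 𝓝 0, 1 - 1 * z ≠ 0 :=
    (an_lin 1).continuousAt.eventually_ne (by simp)
  have w1 : w - β ≠ 0 := sub_ne_zero.2 h1
  have w2 : w + β ≠ 0 := by
    intro h
    exact h2 (eq_neg_of_add_eq_zero_left h)
  have e : (fun z => (T β z ^ 2 - w ^ 2) * ((1 - 1 * z) * (1 - 1 * z))) =ᶠ[𝓝 0]
      fun z => ((β : ℂ) ^ 2 - w ^ 2) * ((1 - qq β w * z) * (1 - (qq β w)⁻¹ * z)) := by
    filter_upwards [h0] with z hz
    unfold T qq
    have hz' : 1 - z ≠ 0 := by simpa using hz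
    rw [inv_div]
    field_simp
    ring
  have hb : (β : ℂ) ^ 2 - w ^ 2 ≠ 0 := by
    have : (β : ℂ) ^ 2 - w ^ 2 = -(w - β) * (w + β) := by ring
    rw [this]
    exact mul_ne_zero (neg_ne_zero.2 w1) w2
  have a1 : AnalyticAt ℂ (fun z => T β z ^ 2 - w ^ 2) 0 := ((an_T β).pow 2).sub analyticAt_const
  have a2 : AnalyticAt ℂ (fun z : ℂ => (1 - 1 * z) * (1 - 1 * z)) 0 := (an_lin 1).mul (an_lin 1)
  have h3 := cf_mul a1 a2 (by rw [T_zero]; exact hb) (by simp) n
  have h4 := cf_mul (an_lin 1) (an_lin 1) (by simp) (by simp) n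
  have h5 := cf_mul (φ := fun _ => (β : ℂ) ^ 2 - w ^ 2)
    (ψ := fun z : ℂ => (1 - qq β w * z) * (1 - (qq β w)⁻¹ * z)) (by fun_prop)
    ((an_lin _).mul (an_lin _)) hb (by simp) n
  have h6 := cf_mul (an_lin (qq β w)) (an_lin (qq β w)⁻¹) (by simp) (by simp) n
  rw [cf_congr e, h5, h6, h4, cf_const, cf_lin, cf_lin, cf_lin] at h3
  simp only [one_pow] at h3
  linear_combination -h3

/-- real part of the coefficient for a zero on the cut -/
theorem cf_T2_nonneg {β : ℝ} (hβ : 0 < β) {w : ℂ} (hw : w.re = 0) (n : ℕ) :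
    0 ≤ (cf (fun z => T β z ^ 2 - w ^ 2) n).re := by
  have h1 : w ≠ β := by
    intro h
    rw [h] at hw
    simp at hw
    exact hβ.ne' hw
  have h2 : w ≠ -β := by
    intro h
    rw [h] at hw
    simp at hw
    exact hβ.ne' hw
  rw [cf_T2 h1 h2]
  have hn : ‖qq β w‖ = 1 := by
    unfold qq
    rw [norm_div, div_eq_one_iff_eq (norm_ne_zero_iff.2 (sub_ne_zero.2 h1))]
    have e : w + β = -(starRingEnd ℂ) (w - β) := by
      apply Complex.ext
      · simp [hw]
      · simp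
    rw [e, norm_neg, Complex.norm_conj]
  have h3 : (qq β w ^ (n + 1)).re ≤ 1 := by
    calc _ ≤ ‖qq β w ^ (n + 1)‖ := Complex.re_le_norm _
      _ = 1 := by rw [norm_pow, hn, one_pow]
  have h4 : ((qq β w)⁻¹ ^ (n + 1)).re ≤ 1 := by
    calc _ ≤ ‖(qq β w)⁻¹ ^ (n + 1)‖ := Complex.re_le_norm _
      _ = 1 := by rw [norm_pow, norm_inv, hn, inv_one, one_pow]
  simp only [sub_re, Complex.re_ofNat]
  linarith

/-- the product formula for polynomials -/
theorem cf_multiset {β : ℝ} (n : ℕ) (s : Multiset ℂ)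
    (hs : ∀ x ∈ s, x ≠ (β : ℂ) ^ 2) :
    cf (fun z => (s.map fun x => T β z ^ 2 - x).prod) n =
      (s.map fun x => cf (fun z => T β z ^ 2 - x) n).sum ∧
    AnalyticAt ℂ (fun z => (s.map fun x => T β z ^ 2 - x).prod) 0 ∧
    (s.map fun x => T β 0 ^ 2 - x).prod ≠ 0 := by
  induction s using Multiset.induction_on with
  | empty => simp [cf_const]; fun_prop
  | cons a s ih =>
    obtain ⟨i1, i2, i3⟩ := ih fun x hx => hs x (Multiset.mem_cons_of_mem hx)
    have ha : T β 0 ^ 2 - a ≠ 0 := by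
      rw [T_zero]
      exact sub_ne_zero.2 (hs a (Multiset.mem_cons_self a s)).symm
    have a1 : AnalyticAt ℂ (fun z => T β z ^ 2 - a) 0 := ((an_T β).pow 2).sub analyticAt_const
    simp only [Multiset.map_cons, Multiset.prod_cons, Multiset.sum_cons]
    refine ⟨?_, a1.mul i2, mul_ne_zero ha i3⟩
    rw [cf_mul a1 i2 ha i3, i1]

theorem cf_poly {β : ℝ} (P : Polynomial ℝ) (hP : Polynomial.aeval ((β : ℂ) ^ 2) P ≠ 0)
    (n : ℕ) :
    cf (fun z => Polynomial.aeval (T β z ^ 2) P) n =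
      (((P.map (algebraMap ℝ ℂ)).roots).map fun x => cf (fun z => T β z ^ 2 - x) n).sum := by
  have hP0 : P ≠ 0 := by
    rintro rfl
    simp at hP
  have hne : ∀ x ∈ (P.map (algebraMap ℝ ℂ)).roots, x ≠ (β : ℂ) ^ 2 := by
    rintro x hx rfl
    have := (Polynomial.mem_roots'.1 hx).2
    rw [Polynomial.IsRoot, Polynomial.eval_map_algebraMap] at this
    exact hP this
  have hs : (P.map (algebraMap ℝ ℂ)).Splits := IsAlgClosed.splits _
  have e : (fun z => Polynomial.aeval (T β z ^ 2) P) = fun z =>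
      (P.map (algebraMap ℝ ℂ)).leadingCoeff *
        (((P.map (algebraMap ℝ ℂ)).roots).map fun x => T β z ^ 2 - x).prod := by
    funext z
    rw [← Polynomial.eval_map_algebraMap, hs.eval_eq_prod_roots]
  obtain ⟨i1, i2, i3⟩ := cf_multiset n _ hne
  have hl : (P.map (algebraMap ℝ ℂ)).leadingCoeff ≠ 0 := by
    rw [Polynomial.leadingCoeff_ne_zero]
    exact (Polynomial.map_ne_zero_iff (algebraMap ℝ ℂ).injective).2 hP0
  rw [e, cf_mul (φ := fun _ => (P.map (algebraMap ℝ ℂ)).leadingCoeff) (by fun_prop) i2 hl i3,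
    cf_const, zero_add, i1]

/-- Cauchy's estimate -/
theorem cf_bound {φ : ℂ → ℂ} {R : ℝ} (hR : 0 < R)
    (h1 : ∀ z ∈ closedBall (0 : ℂ) R, AnalyticAt ℂ φ z)
    (h2 : ∀ z ∈ closedBall (0 : ℂ) R, φ z ≠ 0) :
    ∃ C : ℝ, ∀ n : ℕ, ‖cf φ n‖ ≤ C / R ^ n := by
  have h3 : ∀ z ∈ closedBall (0 : ℂ) R, AnalyticAt ℂ (logDeriv φ) z := fun z hz =>
    (h1 z hz).deriv.div (h1 z hz) (h2 z hz)
  have h4 : ContinuousOn (logDeriv φ) (closedBall (0 : ℂ) R) := fun z hz =>
    (h3 z hz).continuousAt.continuousWithinAt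
  obtain ⟨C, hC⟩ := (isCompact_closedBall (0 : ℂ) R).exists_bound_of_continuousOn h4
  refine ⟨C, fun n => ?_⟩
  have h5 : DiffContOnCl ℂ (logDeriv φ) (ball 0 R) := by
    constructor
    · intro z hz
      exact (h3 z (ball_subset_closedBall hz)).differentiableAt.differentiableWithinAt
    · rw [closure_ball _ hR.ne']
      exact h4
  have h6 := Complex.norm_iteratedDeriv_le_of_forall_mem_sphere_norm_le n hR h5
    fun z hz => hC z (sphere_subset_closedBall hz)
  unfold cf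
  have hn : (0 : ℝ) < n.factorial := by exact_mod_cast n.factorial_pos
  rw [norm_div, Complex.norm_natCast, div_le_iff₀ hn]
  calc _ ≤ _ := h6
    _ = _ := by ring

/-- convergence of the coefficients -/
theorem cf_tendsto {ι : Type*} {l : Filter ι} [l.NeBot] {Φ : ι → ℂ → ℂ} {φ : ℂ → ℂ}
    {U : Set ℂ} (hU : IsOpen U) (h0 : (0 : ℂ) ∈ U)
    (hlim : TendstoLocallyUniformlyOn Φ φ l U)
    (hd : ∀ N, DifferentiableOn ℂ (Φ N) U) (hn : ∀ N, ∀ z ∈ U, Φ N z ≠ 0)
    (hn' : ∀ z ∈ U, φ z ≠ 0) (n : ℕ) :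
    Tendsto (fun N => cf (Φ N) n) l (𝓝 (cf φ n)) := by
  have hφ : DifferentiableOn ℂ φ U := hlim.differentiableOn (Eventually.of_forall hd) hU
  have h1 : TendstoLocallyUniformlyOn (fun N => deriv (Φ N)) (deriv φ) l U :=
    hlim.deriv (Eventually.of_forall hd) hU
  have h2 : TendstoLocallyUniformlyOn (fun N => logDeriv (Φ N)) (logDeriv φ) l U := by
    have := h1.div₀ hlim ((hφ.deriv hU).continuousOn) hφ.continuousOn hn'
    exact this
  have h3 : ∀ k : ℕ, TendstoLocallyUniformlyOn (fun N => iteratedDeriv k (logDeriv (Φ N)))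
      (iteratedDeriv k (logDeriv φ)) l U ∧
      ∀ N, DifferentiableOn ℂ (iteratedDeriv k (logDeriv (Φ N))) U := by
    intro k
    induction k with
    | zero =>
      simp only [iteratedDeriv_zero]
      exact ⟨h2, fun N => ((hd N).deriv hU).div (hd N) (hn N)⟩
    | succ k ih =>
      simp only [iteratedDeriv_succ]
      exact ⟨ih.1.deriv (Eventually.of_forall ih.2) hU, fun N => (ih.2 N).deriv hU⟩
  unfold cf
  exact ((h3 n).1.tendsto_at h0).div_const _

end Pool.Agent.TH99.LI
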