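import Pool.Agent.TH99.LI.Bohr
import Pool.Agent.TH99.LI.Disc
import Pool.Agent.H24R2.JP.Had

set_option autoImplicit false

/-!
# Li coefficients along sets of Bohr recurrence
-/

namespace Pool.Agent.TH99.LI

open Complex Filter Topology Metric

/-- `F (w) = w ^ k * g (w ^ 2)` with a real entire function `g` of order less than one -/
structure EF (F g : ℂ → ℂ) (k : ℕ) : Prop where
  eq : ∀ w, F w = w ^ k * g (w ^ 2)
  ent : Differentiable ℂ g
  ne0 : g 0 ≠ 0
  real : ∀ z, g ((starRingEnd ℂ) z) = (starRingEnd ℂ) (g z)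
  grow : ∃ K : ℝ, ∀ z, ‖g z‖ ≤ Real.exp (K * (1 + ‖z‖) ^ (3 / 4 : ℝ))

/-- the Li coefficients -/
noncomputable def li (F : ℂ → ℂ) (β : ℝ) (n : ℕ) : ℝ :=
  (iteratedDeriv (n - 1) (logDeriv fun z : ℂ => F (β * (1 + z) / (1 - z))) 0).re /
    ((n - 1).factorial : ℝ)

theorem li_eq (F : ℂ → ℂ) (β : ℝ) (n : ℕ) : li F β n = (cf (fun z => F (T β z)) (n - 1)).re := by
  unfold li cf T
  rw [Complex.div_natCast_re]

theorem T_re_pos {β : ℝ} (hβ : 0 < β) {z : ℂ} (hz : ‖z‖ < 1) : 0 < (T β z).re := by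
  have h1 : 1 - z ≠ 0 := by
    intro h
    have : z = 1 := (sub_eq_zero.1 h).symm
    rw [this] at hz
    simp at hz
  have h2 : 0 < Complex.normSq (1 - z) := Complex.normSq_pos.2 h1
  unfold T
  rw [mul_div_assoc, Complex.re_ofReal_mul, Complex.div_re]
  refine mul_pos hβ ?_
  rw [← add_div]
  refine div_pos ?_ h2
  have h3 : ‖z‖ ^ 2 < 1 := by nlinarith [norm_nonneg z]
  rw [Complex.sq_norm, Complex.normSq_apply] at h3
  simp
  nlinarith

theorem T_an {β : ℝ} {z : ℂ} (hz : ‖z‖ < 1) : AnalyticAt ℂ (T β) z := by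
  have h1 : 1 - z ≠ 0 := by
    intro h
    have : z = 1 := (sub_eq_zero.1 h).symm
    rw [this] at hz
    simp at hz
  unfold T
  exact AnalyticAt.div (by fun_prop) (by fun_prop) h1

theorem T_norm {β : ℝ} (hβ : 0 < β) {R : ℝ} (hR : R < 1) {z : ℂ} (hz : ‖z‖ ≤ R) :
    ‖T β z‖ ≤ β * (1 + R) / (1 - R) := by
  unfold T
  rw [norm_div, norm_mul, Complex.norm_real, Real.norm_of_nonneg hβ.le]
  have h1 : ‖1 + z‖ ≤ 1 + R := (norm_add_le _ _).trans (by rw [norm_one]; linarith)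
  have h2 : 1 - R ≤ ‖1 - z‖ := by
    have := norm_sub_norm_le (1 : ℂ) z
    rw [norm_one] at this
    linarith
  have h3 : 0 < 1 - R := by linarith
  have h4 : 0 ≤ 1 + R := by linarith [norm_nonneg z]
  gcongr

/-- inverse of `T` -/
theorem T_inv {β : ℝ} (hβ : 0 < β) {w : ℂ} (hw : w ≠ -β) : T β ((w - β) / (w + β)) = w := by
  have h1 : w + β ≠ 0 := by
    intro h
    exact hw (eq_neg_of_add_eq_zero_left h)
  have h2 : (β : ℂ) ≠ 0 := by exact_mod_cast hβ.ne'
  unfold T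
  have e1 : 1 + (w - β) / (w + β) = 2 * w / (w + β) := by
    field_simp
    ring
  have e2 : 1 - (w - β) / (w + β) = 2 * β / (w + β) := by
    field_simp
    ring
  rw [e1, e2]
  field_simp

variable {F g : ℂ → ℂ} {k : ℕ}

theorem EF.g_ne (h : EF F g k) {w : ℂ} (hw : F w ≠ 0) : g (w ^ 2) ≠ 0 := by
  intro h1
  rw [h.eq, h1, mul_zero] at hw
  exact hw rfl

theorem EF.g_an (h : EF F g k) {β : ℝ} {z : ℂ} (hz : ‖z‖ < 1) :
    AnalyticAt ℂ (fun z => g (T β z ^ 2)) z :=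
  AnalyticAt.fun_comp (h.ent.analyticAt _) ((T_an hz).pow 2)

theorem poly_an {β : ℝ} (P : Polynomial ℝ) {z : ℂ} (hz : ‖z‖ < 1) :
    AnalyticAt ℂ (fun z => Polynomial.aeval (T β z ^ 2) P) z :=
  AnalyticAt.aeval_polynomial (f := fun z => T β z ^ 2) ((T_an hz).pow 2) P

/-- splitting off the zero at the origin -/
theorem EF.cf (h : EF F g k) {β : ℝ} (hβ : 0 < β) (hF : F β ≠ 0) (n : ℕ) :
    cf (fun z => F (T β z)) n = k * (1 + (-1) ^ n) + cf (fun z => g (T β z ^ 2)) n := by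
  have hb : (β : ℂ) ≠ 0 := by exact_mod_cast hβ.ne'
  have h1 : AnalyticAt ℂ (fun z => T β z ^ k) 0 := (an_T β).pow k
  have h2 : AnalyticAt ℂ (fun z => g (T β z ^ 2)) 0 := h.g_an (by simp)
  have e : (fun z => F (T β z)) = fun z => T β z ^ k * g (T β z ^ 2) := by
    funext z
    exact h.eq _
  rw [e, cf_mul h1 h2 (by rw [T_zero]; exact pow_ne_zero _ hb) (by rw [T_zero]; exact h.g_ne hF),
    cf_pow (an_T β) (by rw [T_zero]; exact hb), cf_T hβ]

/-- a square root in the right half-plane -/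
theorem sqrt_ex (x : ℂ) : ∃ w : ℂ, w ^ 2 = x ∧ 0 ≤ w.re := by
  obtain ⟨w, hw⟩ := IsAlgClosed.exists_pow_nat_eq x (n := 2) (by norm_num)
  rcases le_total 0 w.re with h | h
  · exact ⟨w, hw, h⟩
  · exact ⟨-w, by rw [neg_sq, hw], by rw [neg_re]; linarith⟩

theorem sum_re_le (f : ℂ → ℂ) (c : ℝ) (s : Multiset ℂ) (h : ∀ x ∈ s, (f x).re ≤ c) :
    ((s.map f).sum).re ≤ s.card * c := by
  induction s using Multiset.induction_on with
  | empty => simp
  | cons a s ih =>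
    rw [Multiset.map_cons, Multiset.sum_cons, add_re, Multiset.card_cons]
    have h1 := h a (Multiset.mem_cons_self a s)
    have h2 := ih fun x hx => h x (Multiset.mem_cons_of_mem hx)
    push_cast
    linarith

theorem sum_re_ge (f : ℂ → ℂ) (s : Multiset ℂ) (h : ∀ x ∈ s, 0 ≤ (f x).re) :
    0 ≤ ((s.map f).sum).re := by
  induction s using Multiset.induction_on with
  | empty => simp
  | cons a s ih =>
    rw [Multiset.map_cons, Multiset.sum_cons, add_re]
    have h1 := h a (Multiset.mem_cons_self a s)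
    have h2 := ih fun x hx => h x (Multiset.mem_cons_of_mem hx)
    linarith

/-- **The positive direction.** -/
theorem EF.nonneg (h : EF F g k) {β : ℝ} (hβ : 0 < β) (hr : ∀ w, F w = 0 → w.re = 0) (n : ℕ) :
    0 ≤ (LI.cf (fun z => F (T β z)) n).re := by
  have hF : F β ≠ 0 := by
    intro h1
    have := hr _ h1
    rw [ofReal_re] at this
    exact hβ.ne' this
  obtain ⟨K, hK⟩ := h.grow
  obtain ⟨P, hP, hlim⟩ := Pool.Agent.H24R2.JP.had g K h.ent h.ne0 h.real hK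
  have hgz : ∀ x, g x = 0 → ∃ w : ℂ, w ^ 2 = x ∧ w.re = 0 := by
    intro x hx
    obtain ⟨w, hw, -⟩ := sqrt_ex x
    refine ⟨w, hw, hr w ?_⟩
    rw [h.eq, hw, hx, mul_zero]
  have hne : ∀ z ∈ ball (0 : ℂ) 1, g (T β z ^ 2) ≠ 0 := by
    intro z hz h1
    have hz' : ‖z‖ < 1 := by simpa using hz
    have h2 := hr (T β z) (by rw [h.eq, h1, mul_zero])
    exact (T_re_pos hβ hz').ne' h2
  have hc : ContinuousOn (fun z => T β z ^ 2) (ball (0 : ℂ) 1) := by
    intro z hz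
    have hz' : ‖z‖ < 1 := by simpa using hz
    exact ((T_an hz').continuousAt.pow 2).continuousWithinAt
  have hlim2 : TendstoLocallyUniformlyOn (fun (N : ℕ) (z : ℂ) => Polynomial.aeval (T β z ^ 2) (P N))
      (fun z => g (T β z ^ 2)) atTop (ball (0 : ℂ) 1) := by
    have h1 := (tendstoLocallyUniformlyOn_univ.2 hlim)
    exact h1.comp (fun z => T β z ^ 2) (Set.mapsTo_univ _ _) hc
  have hd : ∀ N : ℕ, DifferentiableOn ℂ (fun z : ℂ => Polynomial.aeval (T β z ^ 2) (P N))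
      (ball (0 : ℂ) 1) := by
    intro N z hz
    have hz' : ‖z‖ < 1 := by simpa using hz
    exact (poly_an (P N) hz').differentiableAt.differentiableWithinAt
  have hnP : ∀ N : ℕ, ∀ z ∈ ball (0 : ℂ) 1, Polynomial.aeval (T β z ^ 2) (P N) ≠ 0 :=
    fun N z hz h1 => hne z hz (hP N _ h1)
  have hten := cf_tendsto (Φ := fun (N : ℕ) (z : ℂ) => Polynomial.aeval (T β z ^ 2) (P N))
    isOpen_ball (by simp) hlim2 hd hnP hne n
  have hge : ∀ N, 0 ≤ (LI.cf (fun z => Polynomial.aeval (T β z ^ 2) (P N)) n).re := by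
    intro N
    have h0 := hnP N 0 (by simp)
    rw [T_zero] at h0
    rw [cf_poly (P N) h0]
    refine sum_re_ge _ _ fun x hx => ?_
    have h1 : Polynomial.aeval x (P N) = 0 := by
      have := (Polynomial.mem_roots'.1 hx).2
      rwa [Polynomial.IsRoot, Polynomial.eval_map_algebraMap] at this
    obtain ⟨w, hw, hwr⟩ := hgz x (hP N x h1)
    rw [← hw]
    exact cf_T2_nonneg hβ hwr n
  have h2 : 0 ≤ (LI.cf (fun z => g (T β z ^ 2)) n).re :=
    ge_of_tendsto ((Complex.continuous_re.tendsto _).comp hten) (Eventually.of_forall hge)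
  rw [h.cf hβ hF n, add_re]
  have h3 : 0 ≤ ((k : ℂ) * (1 + (-1) ^ n)).re := by
    rcases Nat.even_or_odd n with h4 | h4
    · rw [h4.neg_one_pow]
      simp
    · rw [h4.neg_one_pow]
      simp
  linarith

theorem qq_norm {β : ℝ} (hβ : 0 < β) {w : ℂ} (hw : 0 ≤ w.re) (h1 : w ≠ β) : 1 ≤ ‖qq β w‖ := by
  unfold qq
  rw [norm_div, one_le_div (norm_pos_iff.2 (sub_ne_zero.2 h1))]
  rw [← Real.sqrt_sq (norm_nonneg (w + β)), ← Real.sqrt_sq (norm_nonneg (w - β))]
  apply Real.sqrt_le_sqrt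
  rw [Complex.sq_norm, Complex.sq_norm, Complex.normSq_apply, Complex.normSq_apply]
  simp
  nlinarith

theorem re_near {β : ℝ} (hβ : 0 < β) {w : ℂ} (hw : 0 ≤ w.re) (h1 : w ≠ β) {n : ℕ} (hn : 1 ≤ n)
    (hu : ‖(qq β w / ‖qq β w‖) ^ n - 1‖ < 1 / 2) :
    (cf (fun z => T β z ^ 2 - w ^ 2) (n - 1)).re ≤ 2 - ‖qq β w‖ ^ n / 2 := by
  have h2 : w ≠ -β := by
    intro h
    rw [h] at hw
    simp at hw
    linarith
  rw [cf_T2 h1 h2]
  have hn' : n - 1 + 1 = n := by omega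
  rw [hn']
  set q := qq β w with hq
  have hq1 := qq_norm hβ hw h1
  rw [← hq] at hq1
  have hq0 : (‖q‖ : ℂ) ≠ 0 := by
    have : ‖q‖ ≠ 0 := by linarith
    exact_mod_cast this
  set v : ℂ := (q / ‖q‖) ^ n with hv
  have hvn : ‖v‖ = 1 := by
    rw [hv, norm_pow, norm_div, Complex.norm_real, norm_norm, div_self (by linarith), one_pow]
  have hvr : 1 / 2 ≤ v.re := by
    have h3 := Complex.abs_re_le_norm (v - 1)
    rw [sub_re, one_re] at h3
    have h4 := neg_abs_le (v.re - 1)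
    linarith
  have e1 : q ^ n = ((‖q‖ ^ n : ℝ) : ℂ) * v := by
    rw [hv, div_pow]
    push_cast
    field_simp
  have e2 : q⁻¹ ^ n = (((‖q‖ ^ n)⁻¹ : ℝ) : ℂ) * (starRingEnd ℂ) v := by
    rw [inv_pow, e1, mul_inv]
    push_cast
    congr 1
    have h5 : v * (starRingEnd ℂ) v = 1 := by
      rw [Complex.mul_conj, Complex.normSq_eq_norm_sq, hvn]
      simp
    have hv0 : v ≠ 0 := by
      intro h
      rw [h] at hvn
      simp at hvn
    exact inv_eq_of_mul_eq_one_right h5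
  have h6 : ‖q‖ ^ n / 2 ≤ (q ^ n).re := by
    rw [e1, Complex.re_ofReal_mul]
    have : 0 < ‖q‖ ^ n := by positivity
    nlinarith
  have h7 : 0 ≤ (q⁻¹ ^ n).re := by
    rw [e2, Complex.re_ofReal_mul, Complex.conj_re]
    have : 0 < (‖q‖ ^ n)⁻¹ := by positivity
    exact mul_nonneg this.le (by linarith)
  simp only [sub_re, Complex.re_ofNat]
  linarith

/-- **The negative direction.** -/
theorem EF.neg (h : EF F g k) {β : ℝ} (hβ : 0 < β) (hF : F β ≠ 0) {w0 : ℂ} (hw0 : F w0 = 0)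
    (hre : 0 < w0.re) {R : ℝ} (hR : ‖(w0 - β) / (w0 + β)‖ < R) (hR1 : R < 1) {A : Set ℕ}
    (hA : BohrRec A) (N : ℕ) :
    ∃ n ∈ A, N ≤ n ∧ 1 ≤ n ∧ (LI.cf (fun z => F (T β z)) (n - 1)).re ≤ -(1 / R) ^ n := by
  classical
  have hR0 : 0 < R := lt_of_le_of_lt (norm_nonneg _) hR
  have hb : (β : ℂ) ≠ 0 := by exact_mod_cast hβ.ne'
  have hwβ : w0 ≠ β := by
    rintro rfl
    exact hF hw0
  have hwβ' : w0 ≠ -β := by
    intro h1
    rw [h1] at hre
    simp at hre
    linarith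
  set S : ℝ := β * (1 + R) / (1 - R) with hS
  have hS0 : 0 < S := by
    have : 0 < 1 - R := by linarith
    positivity
  set ρ : ℝ := S ^ 2 with hρ
  have hρ0 : 0 < ρ := by positivity
  -- a bound for g
  obtain ⟨M0, hM0⟩ := (isCompact_closedBall (0 : ℂ) (2 * ρ)).exists_bound_of_continuousOn
    h.ent.continuous.continuousOn
  set M : ℝ := Real.log (max M0 1) with hM
  have hMb : ∀ w ∈ closedBall (0 : ℂ) (2 * ρ), ‖g w‖ ≤ Real.exp M := by
    intro w hw
    rw [hM, Real.exp_log (by positivity)]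
    exact (hM0 w hw).trans (le_max_left _ _)
  obtain ⟨P, G, hG, -, -, hPG, hGn⟩ := Pool.Agent.H24R2.JP.had_split hρ0
    ⌈∑ᶠ u, (MeromorphicOn.divisor g (closedBall 0 ρ) u : ℝ) * 1⌉₊ g h.ent h.ne0 h.real hMb
    (Nat.le_ceil _)
  have hgβ : g ((β : ℂ) ^ 2) ≠ 0 := h.g_ne hF
  have hPβ : Polynomial.aeval ((β : ℂ) ^ 2) P ≠ 0 := by
    intro h1
    rw [hPG, h1, zero_mul] at hgβ
    exact hgβ rfl
  have hGβ : G ((β : ℂ) ^ 2) ≠ 0 := by
    intro h1
    rw [hPG, h1, mul_zero] at hgβ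
    exact hgβ rfl
  have hP0 : P ≠ 0 := by
    rintro rfl
    simp at hPβ
  -- w0² is a root of P
  have hw0T : ‖w0‖ ≤ S := by
    have := T_norm hβ hR1 hR.le
    rwa [T_inv hβ hwβ'] at this
  have hw0ne : w0 ≠ 0 := by
    rintro rfl
    simp at hre
  have hroot : w0 ^ 2 ∈ (P.map (algebraMap ℝ ℂ)).roots := by
    rw [Polynomial.mem_roots']
    refine ⟨(Polynomial.map_ne_zero_iff (algebraMap ℝ ℂ).injective).2 hP0, ?_⟩
    rw [Polynomial.IsRoot, Polynomial.eval_map_algebraMap]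
    have h1 : g (w0 ^ 2) = 0 := by
      have := h.eq w0
      rw [hw0] at this
      exact (mul_eq_zero.1 this.symm).resolve_left (pow_ne_zero _ hw0ne)
    rw [hPG] at h1
    refine (mul_eq_zero.1 h1).resolve_right (hGn _ ?_)
    rw [mem_closedBall, dist_zero_right, norm_pow, hρ]
    gcongr
  -- the bound for the remaining factor
  have hGan : ∀ z ∈ closedBall (0 : ℂ) R, AnalyticAt ℂ (fun z => G (T β z ^ 2)) z := by
    intro z hz
    have hz' : ‖z‖ < 1 := lt_of_le_of_lt (by simpa using hz) hR1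
    exact AnalyticAt.fun_comp (hG.analyticAt _) ((T_an hz').pow 2)
  have hGne : ∀ z ∈ closedBall (0 : ℂ) R, G (T β z ^ 2) ≠ 0 := by
    intro z hz
    have hz' : ‖z‖ ≤ R := by simpa using hz
    refine hGn _ ?_
    rw [mem_closedBall, dist_zero_right, norm_pow, hρ]
    have := T_norm hβ hR1 hz'
    gcongr
  obtain ⟨C, hC⟩ := cf_bound hR0 hGan hGne
  -- the roots
  choose sq hsq1 hsq2 using sqrt_ex
  have hrootβ : ∀ x ∈ (P.map (algebraMap ℝ ℂ)).roots, sq x ≠ β := by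
    intro x hx h1
    have h2 : x = (β : ℂ) ^ 2 := by rw [← h1, hsq1]
    have := (Polynomial.mem_roots'.1 hx).2
    rw [Polynomial.IsRoot, Polynomial.eval_map_algebraMap, h2] at this
    exact hPβ this
  have hsqw0 : sq (w0 ^ 2) = w0 := by
    have h1 := hsq1 (w0 ^ 2)
    rcases sq_eq_sq_iff_eq_or_eq_neg.1 h1 with h2 | h2
    · exact h2
    · have h3 := hsq2 (w0 ^ 2)
      rw [h2, neg_re] at h3
      linarith
  set W : Finset ℂ := (P.map (algebraMap ℝ ℂ)).roots.toFinset.image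
    (fun x => qq β (sq x) / ‖qq β (sq x)‖) with hW
  have hW1 : ∀ u ∈ W, ‖u‖ = 1 := by
    intro u hu
    rw [hW, Finset.mem_image] at hu
    obtain ⟨x, hx, rfl⟩ := hu
    have h1 := qq_norm hβ (hsq2 x) (hrootβ x (Multiset.mem_toFinset.1 hx))
    rw [norm_div, Complex.norm_real, norm_norm, div_self (by linarith)]
  -- growth
  set q0 : ℝ := ‖qq β w0‖ with hq0
  have hq0R : 1 / R < q0 := by
    have h1 : ‖(w0 - β) / (w0 + β)‖ = 1 / q0 := by
      rw [hq0, qq, norm_div, norm_div, one_div_div]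
    rw [h1] at hR
    have h2 : 0 < q0 := by
      have := qq_norm hβ hre.le hwβ
      linarith
    rw [div_lt_iff₀ h2] at hR
    rw [div_lt_iff₀ hR0]
    linarith
  have hR1' : 1 < 1 / R := by rw [lt_div_iff₀ hR0]; linarith
  set D : ℝ := 2 * k + 2 * (P.map (algebraMap ℝ ℂ)).roots.card + |C| * R + 1 with hD
  have hD0 : 0 < D := by positivity
  have hev : ∀ᶠ n : ℕ in atTop, D * (1 / R) ^ n ≤ q0 ^ n / 2 := by
    have h1 : Tendsto (fun n : ℕ => D * ((1 / R) / q0) ^ n) atTop (𝓝 (D * 0)) :=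
      (tendsto_pow_atTop_nhds_zero_of_lt_one (by positivity)
        ((div_lt_one (by linarith)).2 hq0R)).const_mul D
    rw [mul_zero] at h1
    filter_upwards [h1.eventually_le_const (show (0 : ℝ) < 1 / 2 by norm_num)] with n hn
    have h2 : 0 < q0 ^ n := pow_pos (by linarith) n
    rw [div_pow, ← mul_div_assoc, div_le_iff₀ h2] at hn
    linarith
  obtain ⟨N1, hN1⟩ := eventually_atTop.1 hev
  obtain ⟨n, hnA, hnN, hnu⟩ := hA W hW1 (1 / 2) (by norm_num) (max (max N N1) 1)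
  have hn1 : 1 ≤ n := (le_max_right _ _).trans hnN
  have hnN' : N ≤ n := (le_max_left _ _).trans ((le_max_left _ _).trans hnN)
  have hnN1 : N1 ≤ n := (le_max_right _ _).trans ((le_max_left _ _).trans hnN)
  refine ⟨n, hnA, hnN', hn1, ?_⟩
  -- each root
  have hx : ∀ x ∈ (P.map (algebraMap ℝ ℂ)).roots,
      (LI.cf (fun z => T β z ^ 2 - x) (n - 1)).re ≤ 2 - ‖qq β (sq x)‖ ^ n / 2 := by
    intro x hx
    have h1 := re_near hβ (hsq2 x) (hrootβ x hx) hn1
      (hnu _ (by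
        rw [hW, Finset.mem_image]
        exact ⟨x, Multiset.mem_toFinset.2 hx, rfl⟩))
    rwa [hsq1] at h1
  have hsum : (((P.map (algebraMap ℝ ℂ)).roots.map
      fun x => LI.cf (fun z => T β z ^ 2 - x) (n - 1)).sum).re ≤
      2 * (P.map (algebraMap ℝ ℂ)).roots.card - q0 ^ n / 2 := by
    obtain ⟨s, hs⟩ := Multiset.exists_cons_of_mem hroot
    rw [hs] at hx ⊢
    rw [Multiset.map_cons, Multiset.sum_cons, add_re, Multiset.card_cons]
    have h1 := hx (w0 ^ 2) (Multiset.mem_cons_self _ _)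
    rw [hsqw0] at h1
    have h2 := sum_re_le (fun x => LI.cf (fun z => T β z ^ 2 - x) (n - 1)) 2 s
      fun x hxs => (hx x (Multiset.mem_cons_of_mem hxs)).trans (by
        have : 0 ≤ ‖qq β (sq x)‖ ^ n := by positivity
        linarith)
    push_cast
    linarith
  -- the total
  have e1 : LI.cf (fun z => g (T β z ^ 2)) (n - 1) =
      LI.cf (fun z => Polynomial.aeval (T β z ^ 2) P) (n - 1) +
        LI.cf (fun z => G (T β z ^ 2)) (n - 1) := by
    have e2 : (fun z => g (T β z ^ 2)) = fun z =>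
        Polynomial.aeval (T β z ^ 2) P * G (T β z ^ 2) := by
      funext z
      exact hPG _
    rw [e2, cf_mul (poly_an P (by simp)) (hGan 0 (by simp [hR0.le]))
      (by rw [T_zero]; exact hPβ) (by rw [T_zero]; exact hGβ)]
  rw [h.cf hβ hF, e1, cf_poly P hPβ, add_re, add_re]
  have h8 : ((k : ℂ) * (1 + (-1) ^ (n - 1))).re ≤ 2 * k := by
    rcases Nat.even_or_odd (n - 1) with h4 | h4
    · rw [h4.neg_one_pow]
      simp
      linarith
    · rw [h4.neg_one_pow]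
      simp
  have h9 : (LI.cf (fun z => G (T β z ^ 2)) (n - 1)).re ≤ |C| * R * (1 / R) ^ n := by
    calc _ ≤ ‖LI.cf (fun z => G (T β z ^ 2)) (n - 1)‖ := Complex.re_le_norm _
      _ ≤ C / R ^ (n - 1) := hC _
      _ ≤ |C| / R ^ (n - 1) := by gcongr; exact le_abs_self C
      _ = |C| * R * (1 / R) ^ n := by
          obtain ⟨m, rfl⟩ : ∃ m, n = m + 1 := ⟨n - 1, by omega⟩
          rw [Nat.add_sub_cancel, div_pow, one_pow, pow_succ]
          field_simp
  have h10 := hN1 n hnN1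
  have h11 : (1 : ℝ) ≤ (1 / R) ^ n := one_le_pow₀ hR1'.le
  have h12 : (0 : ℝ) ≤ (k : ℝ) := Nat.cast_nonneg k
  have h13 : (0 : ℝ) ≤ ((P.map (algebraMap ℝ ℂ)).roots.card : ℝ) := Nat.cast_nonneg _
  have h14 : 2 * (k : ℝ) + 2 * ((P.map (algebraMap ℝ ℂ)).roots.card : ℝ) ≤
      (2 * (k : ℝ) + 2 * ((P.map (algebraMap ℝ ℂ)).roots.card : ℝ)) * (1 / R) ^ n :=
    le_mul_of_one_le_right (by positivity) h11
  rw [hD] at h10
  have h15 : (2 * (k : ℝ) + 2 * ((P.map (algebraMap ℝ ℂ)).roots.card : ℝ) + |C| * R + 1) *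
      (1 / R) ^ n = (2 * (k : ℝ) + 2 * ((P.map (algebraMap ℝ ℂ)).roots.card : ℝ)) * (1 / R) ^ n +
        |C| * R * (1 / R) ^ n + (1 / R) ^ n := by ring
  rw [h15] at h10
  linarith

end Pool.Agent.TH99.LI
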