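import Pool.Agent.TH99.LI.Main

set_option autoImplicit false

/-!
# Li's criterion along sets of Bohr recurrence, for `H^i(E^g)`, `i` odd
-/

namespace Pool.Agent.TH99.LI

open Complex Filter Topology Metric
open scoped ComplexConjugate
open Pool.Agent.W355.LJ Pool.Agent.W355.HW
open Pool.Agent.TH99.RJ.WW (scale_up)
open Pool.Agent.W354.PK (HCk LK bK psik goodK uh_psik)
open Pool.Agent.W354.HW (chiE qE chiE_pow_HC chiE_apply)
open Pool.Agent.H304R3.HK (lg_bb F_ne_zero)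

theorem FE_ne (l : ℕ) {s : ℂ} (hs : 1 < s.re) : FE (2 * l + 1) s ≠ 0 := by
  obtain ⟨A, hA, hgood⟩ := goodK
  have hH := chiE_pow_HC (odd_l l)
  obtain ⟨-, hser, -, -⟩ := hgood (2 * l + 1) qE (chiE ^ (2 * l + 1)) (by omega) hH
  have hLg := lg_bb (psik (2 * l + 1) (chiE ^ (2 * l + 1))) (uh_psik hH)
  exact F_ne_zero _ _ hLg (LK (2 * l + 1) (chiE ^ (2 * l + 1))) hser s hs

theorem GP_ne (g m : ℕ) {s : ℂ} (hs : 1 < s.re) : GP g m s ≠ 0 := by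
  rw [GP_eq]
  refine Finset.prod_ne_zero_iff.2 fun l _ => pow_ne_zero _ ?_
  unfold G1
  refine mul_ne_zero (mul_ne_zero ?_ ?_) (FE_ne l hs)
  · rw [Complex.cpow_ne_zero_iff]
    left
    norm_num
  · rw [Complex.Gammaℂ_def]
    refine mul_ne_zero (mul_ne_zero two_ne_zero ?_) ?_
    · rw [Complex.cpow_ne_zero_iff]
      left
      exact mul_ne_zero two_ne_zero (by exact_mod_cast Real.pi_ne_zero)
    · refine Complex.Gamma_ne_zero_of_re_pos ?_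
      have : (s + l + 1 / 2).re = s.re + l + 1 / 2 := by simp
      rw [this]
      have : (0 : ℝ) ≤ l := Nat.cast_nonneg l
      linarith


theorem efL {D : Pool.Agent.W355.LJ.LD} (h : Pool.Agent.W355.LJ.IsLD D) :
    ∃ (g : ℂ → ℂ) (k : ℕ), EF (fun z => D.Λ (1 / 2 + z)) g k :=
  ef_of_scale (scale_up (Pool.Agent.W355.LJ.scaleL h))

theorem efR {l : List Pc} {L : ℝ} {b : ℕ → ℂ} {w : ℂ} {Λ : ℂ → ℂ} (h : IsC l L b w Λ)
    (hb : ∀ n, conj (b n) = b n) (hl : l ≠ []) :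
    ∃ (g : ℂ → ℂ) (k : ℕ), EF (fun z => Λ (1 / 2 + z)) g k := by
  obtain ⟨D, hD, hD1, hD2⟩ := h.toLD hb hl
  have h1 := efL hD
  rw [hD1] at h1
  exact h1

theorem efS {l : List Pc} {M : ℝ} {b : ℕ → ℂ} {w : ℂ} {Λ : ℂ → ℂ} (h : IsC l M b w Λ)
    (hl : l ≠ []) (hs : st Λ = Λ) :
    ∃ (g : ℂ → ℂ) (k : ℕ), EF (fun z => Λ (1 / 2 + z)) g k := by
  classical
  have h1 : IsC l M (fun n => if n = 0 then 0 else b n) w Λ := by
    refine h.congr' fun n hn => ?_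
    rw [if_neg (by omega)]
  refine efR h1 (fun n => ?_) hl
  by_cases hn : n = 0
  · simp [hn]
  · rw [if_neg hn]
    exact h.real_of_star hl hs n (Nat.one_le_iff_ne_zero.2 hn)

/-- the completed L-function, centred at `1/2` -/
theorem ef_half (g m : ℕ) (hm : m < g) : ∃ (Λ : ℂ → ℂ) (r : ℕ), r ≤ 1 ∧ Differentiable ℂ Λ ∧
    (∀ s : ℂ, -(1 / 2 : ℝ) < s.re → Λ s = GP g m s) ∧
    (∀ s : ℂ, Λ (conj s) = conj (Λ s)) ∧
    (∀ z : ℂ, Λ (1 / 2 + -z) = (-1) ^ r * Λ (1 / 2 + z)) ∧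
    ∃ (G : ℂ → ℂ) (k : ℕ), EF (fun z => Λ (1 / 2 + z)) G k := by
  obtain ⟨Λ, ⟨w, hg⟩, hst⟩ := goodR_prod G1 goodR_one (mu g m) (mu_zero hm) m
  obtain ⟨l, M, b, hl, hw, hc, σ, hσ⟩ := hg
  obtain ⟨r, hr, h1, -⟩ := Pool.Agent.TH99.RJ.WW.critS' hc hl hst
  refine ⟨Λ, r, hr, hc.entire, ?_, ?_, h1, efS hc hl hst⟩
  · exact half_eqL (fun s _ => hc.entire.analyticAt s) (fun s hs => GP_an g m hs)
      (fun s hs => by rw [hσ s hs, GP_eq])
  · intro s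
    have := congrFun hst (conj s)
    unfold st at this
    rw [Complex.conj_conj] at this
    exact this.symm

theorem ef_HW (g m : ℕ) (hm : m < g) : ∃ (Λ : ℂ → ℂ) (r : ℕ), r ≤ 1 ∧ Differentiable ℂ Λ ∧
    (∀ s : ℂ, (((2 * m + 1 : ℕ) : ℝ) - 1) / 2 < s.re →
      Λ s = (Cond g (2 * m + 1) : ℂ) ^ ((s - ((2 * m + 1 : ℕ) : ℂ) / 2) / 2) *
        GamF g (2 * m + 1) s * LL0 g m (s - ((2 * m + 1 : ℕ) : ℂ) / 2)) ∧
    (∀ s : ℂ, Λ (conj s) = conj (Λ s)) ∧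
    (∀ s : ℂ, Λ (((2 * m + 1 : ℕ) : ℂ) + 1 - s) = (-1) ^ r * Λ s) ∧
    (∀ s : ℂ, 1 + ((2 * m + 1 : ℕ) : ℝ) / 2 < s.re → Λ s ≠ 0) ∧
    ∃ (G : ℂ → ℂ) (k : ℕ), EF (fun z => Λ ((((2 * m + 1 : ℕ) : ℂ) + 1) / 2 + z)) G k := by
  obtain ⟨Λ1, r, hr, hd, h1, h2, h3, G, k, h4⟩ := ef_half g m hm
  generalize hi : ((2 * m + 1 : ℕ) : ℂ) = c at *
  generalize hi' : ((2 * m + 1 : ℕ) : ℝ) = x at *
  have hcx : c = (x : ℂ) := by
    rw [← hi, ← hi']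
    push_cast
    rfl
  have hc2 : c / 2 = ((x / 2 : ℝ) : ℂ) := by rw [hcx]; push_cast; rfl
  have hre : ∀ s : ℂ, (s - c / 2).re = s.re - x / 2 := by
    intro s
    rw [hc2, Complex.sub_re, Complex.ofReal_re]
  have hF : (fun z => Λ1 ((c + 1) / 2 + z - c / 2)) = fun z => Λ1 (1 / 2 + z) := by
    funext z
    congr 1
    ring
  refine ⟨fun s => Λ1 (s - c / 2), r, hr, hd.comp (by fun_prop), ?_, ?_, ?_, ?_, G, k, ?_⟩
  · intro s hs
    have h6 := h1 (s - c / 2) (by rw [hre]; linarith)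
    show Λ1 (s - c / 2) = _
    rw [h6]
    unfold GP
    rw [BB_eq, ← GamF_eq, hi]
  · intro s
    show Λ1 (conj s - c / 2) = conj (Λ1 (s - c / 2))
    rw [← h2, map_sub, hc2, Complex.conj_ofReal]
  · intro s
    have h6 := h3 (s - c / 2 - 1 / 2)
    show Λ1 (c + 1 - s - c / 2) = (-1) ^ r * Λ1 (s - c / 2)
    have e1 : (1 / 2 + -(s - c / 2 - 1 / 2) : ℂ) = c + 1 - s - c / 2 := by ring
    have e2 : (1 / 2 + (s - c / 2 - 1 / 2) : ℂ) = s - c / 2 := by ring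
    rw [e1, e2] at h6
    exact h6
  · intro s hs
    have h7 : (1 : ℝ) < (s - c / 2).re := by rw [hre]; linarith
    show Λ1 (s - c / 2) ≠ 0
    rw [h1 _ (by linarith)]
    exact GP_ne g m h7
  · show EF (fun z => Λ1 ((c + 1) / 2 + z - c / 2)) G k
    rw [hF]
    exact h4

/-- the criterion in terms of `Λ` with centre `c` -/
theorem EF.crit_center {Λ G : ℂ → ℂ} {k : ℕ} {c : ℝ} (h : EF (fun z => Λ (c + z)) G k) {β : ℝ}
    (hβ : 0 < β) (hF : Λ (c + β) ≠ 0) {A : Set ℕ} (hA : BohrRec A) :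
    ((∀ s, Λ s = 0 → s.re = c) ↔ ∀ n ∈ A, 1 ≤ n → 0 ≤ li (fun z => Λ (c + z)) β n) ∧
    ∀ Q : ℝ, 1 ≤ Q → ((∀ s, Λ s = 0 → ‖s - c + β‖ ≤ Q * ‖s - c - β‖) ↔
      ∀ ε : ℝ, 0 < ε → ∃ N : ℕ, ∀ n ∈ A, N ≤ n → -(Q + ε) ^ n ≤ li (fun z => Λ (c + z)) β n) := by
  obtain ⟨h1, h2⟩ := h.crit hβ hF hA
  refine ⟨?_, fun Q hQ => ?_⟩
  · rw [← h1]
    constructor
    · intro h3 w hw
      have := h3 _ hw
      rw [add_re, ofReal_re] at this
      linarith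
    · intro h3 s hs
      have := h3 (s - c) (by
        show Λ (c + (s - c)) = 0
        rw [add_sub_cancel]
        exact hs)
      rw [sub_re, ofReal_re] at this
      linarith
  · rw [← h2 Q hQ]
    constructor
    · intro h3 w hw
      have := h3 _ hw
      rwa [add_sub_cancel_left] at this
    · intro h3 s hs
      exact h3 (s - c) (by
        show Λ (c + (s - c)) = 0
        rw [add_sub_cancel]
        exact hs)

theorem EF.large_center {Λ G : ℂ → ℂ} {k : ℕ} {c : ℝ} (h : EF (fun z => Λ (c + z)) G k) {β : ℝ}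
    (hβ : 0 < β) (hF : Λ (c + β) ≠ 0) (hr : ¬ ∀ s, Λ s = 0 → s.re = c) :
    ∃ ρ : ℝ, 1 < ρ ∧ ∀ A : Set ℕ, BohrRec A → ∀ N : ℕ, ∃ n ∈ A, N ≤ n ∧
      li (fun z => Λ (c + z)) β n ≤ -ρ ^ n := by
  refine h.large hβ hF fun h3 => hr fun s hs => ?_
  have := h3 (s - c) (by
    show Λ (c + (s - c)) = 0
    rw [add_sub_cancel]
    exact hs)
  rw [sub_re, ofReal_re] at this
  linarith

end Pool.Agent.TH99.LI
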