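import Pool.Agent.TH99.LI.Crit
import Pool.Agent.TH99.RJ.WW

set_option autoImplicit false

/-!
# Li's criterion along sets of Bohr recurrence, for the L-functions of the library
-/

namespace Pool.Agent.TH99.LI

open Complex Filter Topology Metric

variable {F g : ℂ → ℂ} {k : ℕ}

theorem EF.symm (h : EF F g k) {w : ℂ} (hw : F w = 0) : F (-w) = 0 := by
  rw [h.eq, mul_eq_zero] at hw
  rw [h.eq, neg_sq]
  rcases hw with h1 | h1
  · rw [neg_pow, h1]
    simp
  · rw [h1, mul_zero]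

/-- the criterion for a half-plane / Apollonius disc -/
def LiCrit (F : ℂ → ℂ) (β : ℝ) (A : Set ℕ) : Prop :=
  ((∀ w, F w = 0 → w.re = 0) ↔ ∀ n ∈ A, 1 ≤ n → 0 ≤ li F β n) ∧
  ∀ Q : ℝ, 1 ≤ Q → ((∀ w, F w = 0 → ‖w + β‖ ≤ Q * ‖w - β‖) ↔
    ∀ ε : ℝ, 0 < ε → ∃ N : ℕ, ∀ n ∈ A, N ≤ n → -(Q + ε) ^ n ≤ li F β n)

theorem EF.crit (h : EF F g k) {β : ℝ} (hβ : 0 < β) (hF : F β ≠ 0) {A : Set ℕ}
    (hA : BohrRec A) : LiCrit F β A := by
  have hFb' : F (-β) ≠ 0 := by
    intro h1
    have := h.symm h1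
    rw [neg_neg] at this
    exact hF this
  refine ⟨⟨fun hr n _ _ => ?_, fun hn w hw => ?_⟩, fun Q hQ => ⟨fun hzz ε hε => ?_, fun hn w hw => ?_⟩⟩
  · rw [li_eq]
    exact h.nonneg hβ hr _
  · by_contra hre
    have key : ∀ v : ℂ, F v = 0 → ¬ 0 < v.re := by
      intro v hv hvr
      have hvβ : v ≠ -β := by
        intro h1
        rw [h1] at hvr
        simp at hvr
        linarith
      have h1 : ‖(v - β) / (v + β)‖ < 1 := by
        rw [norm_div, div_lt_one (norm_pos_iff.2 (by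
          intro h2
          exact hvβ (eq_neg_of_add_eq_zero_left h2)))]
        rw [← Real.sqrt_sq (norm_nonneg (v + β)), ← Real.sqrt_sq (norm_nonneg (v - β))]
        apply Real.sqrt_lt_sqrt (sq_nonneg _)
        rw [Complex.sq_norm, Complex.sq_norm, Complex.normSq_apply, Complex.normSq_apply]
        simp
        nlinarith
      obtain ⟨R, hR1, hR2⟩ := exists_between h1
      have hR0 : 0 < R := lt_of_le_of_lt (norm_nonneg _) hR1
      obtain ⟨n, hnA, -, hn1, hle⟩ := h.neg hβ hF hv hvr hR1 hR2 hA 0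
      have h2 := hn n hnA hn1
      rw [li_eq] at h2
      have h3 : 0 < (1 / R) ^ n := by positivity
      linarith
    rcases lt_or_gt_of_ne hre with h1 | h1
    · exact key (-w) (h.symm hw) (by rw [neg_re]; linarith)
    · exact key w hw h1
  · -- quasi version, easy direction
    have hQ0 : 0 < Q := by linarith
    obtain ⟨R, hR⟩ : ∃ R : ℝ, R = 1 / (Q + ε / 2) := ⟨_, rfl⟩
    have hR0 : 0 < R := by rw [hR]; positivity
    have hRQ : R * Q < 1 := by
      rw [hR, one_div, inv_mul_lt_iff₀ (by positivity)]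
      linarith
    have hR1 : R < 1 := by nlinarith
    have h1 : ∀ z ∈ closedBall (0 : ℂ) R, AnalyticAt ℂ (fun z => F (T β z)) z := by
      intro z hz
      have hz' : ‖z‖ < 1 := lt_of_le_of_lt (by simpa using hz) hR1
      have e : F = fun w => w ^ k * g (w ^ 2) := funext h.eq
      have hFa : AnalyticAt ℂ F (T β z) := by
        rw [e]
        have hd : Differentiable ℂ fun w : ℂ => w ^ k * g (w ^ 2) :=
          (differentiable_id.pow k).mul (h.ent.comp (differentiable_id.pow 2))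
        exact hd.analyticAt _
      exact AnalyticAt.fun_comp hFa (T_an hz')
    have h2 : ∀ z ∈ closedBall (0 : ℂ) R, F (T β z) ≠ 0 := by
      intro z hz hF0
      have hz' : ‖z‖ ≤ R := by simpa using hz
      have h3 := hzz _ hF0
      have hz1 : 1 - z ≠ 0 := by
        intro h5
        have : z = 1 := (sub_eq_zero.1 h5).symm
        rw [this] at hz'
        simp at hz'
        linarith
      have e1 : T β z + β = 2 * β / (1 - z) := by
        unfold T
        field_simp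
        ring
      have e2 : T β z - β = 2 * β / (1 - z) * z := by
        unfold T
        field_simp
        ring
      rw [e1, e2, norm_mul] at h3
      have h4 : 0 < ‖2 * (β : ℂ) / (1 - z)‖ := by
        rw [norm_pos_iff]
        have hb : (β : ℂ) ≠ 0 := by exact_mod_cast hβ.ne'
        exact div_ne_zero (mul_ne_zero two_ne_zero hb) hz1
      have h5 : ‖2 * (β : ℂ) / (1 - z)‖ * (Q * ‖z‖) < ‖2 * (β : ℂ) / (1 - z)‖ * 1 := by
        apply mul_lt_mul_of_pos_left _ h4
        nlinarith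
      nlinarith
    obtain ⟨C, hC⟩ := cf_bound hR0 h1 h2
    have hev : ∀ᶠ n : ℕ in atTop, (|C| * R) * (1 / R) ^ n ≤ (Q + ε) ^ n := by
      have hlt : (1 / R) / (Q + ε) < 1 := by
        rw [div_lt_one (by positivity), hR, one_div_one_div]
        linarith
      have h3 : Tendsto (fun n : ℕ => (|C| * R) * ((1 / R) / (Q + ε)) ^ n) atTop
          (𝓝 ((|C| * R) * 0)) :=
        (tendsto_pow_atTop_nhds_zero_of_lt_one (by positivity) hlt).const_mul _
      rw [mul_zero] at h3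
      filter_upwards [h3.eventually_le_const (show (0 : ℝ) < 1 by norm_num)] with n hn
      have h4 : 0 < (Q + ε) ^ n := by positivity
      rw [div_pow, ← mul_div_assoc, div_le_iff₀ h4, one_mul] at hn
      exact hn
    obtain ⟨N, hN⟩ := eventually_atTop.1 hev
    refine ⟨max N 1, fun n _ hn => ?_⟩
    have hn1 : 1 ≤ n := (le_max_right _ _).trans hn
    have h6 := hN n ((le_max_left _ _).trans hn)
    rw [li_eq]
    have h7 : ‖LI.cf (fun z => F (T β z)) (n - 1)‖ ≤ |C| * R * (1 / R) ^ n := by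
      calc _ ≤ C / R ^ (n - 1) := hC _
        _ ≤ |C| / R ^ (n - 1) := by gcongr; exact le_abs_self C
        _ = |C| * R * (1 / R) ^ n := by
            obtain ⟨m, rfl⟩ : ∃ m, n = m + 1 := ⟨n - 1, by omega⟩
            rw [Nat.add_sub_cancel, div_pow, one_pow, pow_succ]
            field_simp
    have h8 := Complex.abs_re_le_norm (LI.cf (fun z => F (T β z)) (n - 1))
    have h9 := neg_abs_le (LI.cf (fun z => F (T β z)) (n - 1)).re
    linarith
  · -- quasi version, the recurrence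
    by_contra hlt
    push Not at hlt
    have hQ0 : 0 < Q := by linarith
    have hwβ : w ≠ β := by
      rintro rfl
      exact hF hw
    have hwβ' : w ≠ -β := by
      rintro rfl
      exact hFb' hw
    have hpos : 0 < ‖w - β‖ := norm_pos_iff.2 (sub_ne_zero.2 hwβ)
    have hpos' : 0 < ‖w + β‖ := by nlinarith
    have hwr : 0 < w.re := by
      by_contra hcon
      push Not at hcon
      have h1 : ‖w + β‖ ≤ ‖w - β‖ := by
        rw [← Real.sqrt_sq (norm_nonneg (w + β)), ← Real.sqrt_sq (norm_nonneg (w - β))]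
        apply Real.sqrt_le_sqrt
        rw [Complex.sq_norm, Complex.sq_norm, Complex.normSq_apply, Complex.normSq_apply]
        simp
        nlinarith
      nlinarith
    have h1 : ‖(w - β) / (w + β)‖ < 1 / Q := by
      rw [norm_div, div_lt_div_iff₀ hpos' hQ0]
      linarith
    obtain ⟨R, hR1, hR2⟩ := exists_between h1
    have hR0 : 0 < R := lt_of_le_of_lt (norm_nonneg _) hR1
    have hR3 : R < 1 := lt_of_lt_of_le hR2 (by rw [div_le_one hQ0]; exact hQ)
    have hRQ : Q < 1 / R := by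
      rw [lt_div_iff₀ hR0]
      rw [lt_div_iff₀ hQ0] at hR2
      linarith
    obtain ⟨N, hN⟩ := hn ((1 / R - Q) / 2) (by linarith)
    obtain ⟨n, hnA, hnN, hn1, hle⟩ := h.neg hβ hF hw hwr hR1 hR3 hA N
    have h2 := hN n hnA hnN
    rw [li_eq] at h2
    have h3 : (Q + (1 / R - Q) / 2) ^ n < (1 / R) ^ n := by
      apply pow_lt_pow_left₀ (by linarith) (by linarith) (by omega)
    linarith

/-- uniform exponential largeness -/
theorem EF.large (h : EF F g k) {β : ℝ} (hβ : 0 < β) (hF : F β ≠ 0)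
    (hr : ¬ ∀ w, F w = 0 → w.re = 0) :
    ∃ ρ : ℝ, 1 < ρ ∧ ∀ A : Set ℕ, BohrRec A → ∀ N : ℕ, ∃ n ∈ A, N ≤ n ∧ li F β n ≤ -ρ ^ n := by
  push Not at hr
  obtain ⟨w, hw, hre⟩ := hr
  have key : ∃ v : ℂ, F v = 0 ∧ 0 < v.re := by
    rcases lt_or_gt_of_ne hre with h1 | h1
    · exact ⟨-w, h.symm hw, by rw [neg_re]; linarith⟩
    · exact ⟨w, hw, h1⟩
  obtain ⟨v, hv, hvr⟩ := key
  have hvβ : v ≠ -β := by
    intro h1
    rw [h1] at hvr
    simp at hvr
    linarith
  have h1 : ‖(v - β) / (v + β)‖ < 1 := by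
    rw [norm_div, div_lt_one (norm_pos_iff.2 (by
      intro h2
      exact hvβ (eq_neg_of_add_eq_zero_left h2)))]
    rw [← Real.sqrt_sq (norm_nonneg (v + β)), ← Real.sqrt_sq (norm_nonneg (v - β))]
    apply Real.sqrt_lt_sqrt (sq_nonneg _)
    rw [Complex.sq_norm, Complex.sq_norm, Complex.normSq_apply, Complex.normSq_apply]
    simp
    nlinarith
  obtain ⟨R, hR1, hR2⟩ := exists_between h1
  have hR0 : 0 < R := lt_of_le_of_lt (norm_nonneg _) hR1
  refine ⟨1 / R, by rw [lt_div_iff₀ hR0]; linarith, fun A hA N => ?_⟩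
  obtain ⟨n, hnA, hnN, hn1, hle⟩ := h.neg hβ hF hv hvr hR1 hR2 hA N
  exact ⟨n, hnA, hnN, by rw [li_eq]; exact hle⟩

/-- The functions of the library. -/
theorem ef_of_scale {D : Pool.Agent.H471R3.GJ.Dat} {r : ℕ} {F : ℂ → ℂ} {c K : ℝ}
    (h : Pool.Agent.W355.GJ.Crit.Scale D r F c K) : ∃ (g : ℂ → ℂ) (k : ℕ), EF F g k := by
  obtain ⟨n0, hn0⟩ := Pool.Agent.TH99.RJ.GW.hyp_isL D h.isL
  obtain ⟨-, hXX, -, -⟩ := Pool.Agent.W355.GJ.T.b1T D h.isL
  obtain ⟨m, g0, hgd, hg0, hfg, hgc, K0, hK0⟩ :=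
    Pool.Agent.H471R3.GJ.GoodAux.exists_div (Pool.Agent.H471R3.GJ.FF D) hn0.diff
      ⟨n0, by rw [hn0.coef]; exact_mod_cast (hn0.pos n0 le_rfl).ne'⟩ hn0.conj hn0.grow.grow34
  have hc : (c : ℂ) ≠ 0 := by exact_mod_cast h.hc.ne'
  have hKc : (K : ℂ) ≠ 0 := by exact_mod_cast h.hK.ne'
  set a : ℝ := K⁻¹ * (c ^ (r + 2 * m))⁻¹ with ha
  have hc0 := h.hc
  have hK00 := h.hK
  have ha0 : 0 < a := by positivity
  set b : ℝ := (c ^ 2)⁻¹ with hb
  have hb0 : 0 < b := by positivity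
  refine ⟨fun x => (a : ℂ) * g0 ((b : ℂ) * x), r + 2 * m, ⟨?_, ?_, ?_, ?_, ?_⟩⟩
  · intro w
    have h1 := h.hX (w / c)
    rw [mul_div_cancel₀ _ hc, ← hXX, hfg] at h1
    have h2 : F w = (K : ℂ)⁻¹ * ((w / c) ^ r * (((w / c) ^ 2) ^ m * g0 ((w / c) ^ 2))) := by
      rw [h1]
      field_simp
    have e3 : (w / c : ℂ) ^ 2 = (b : ℂ) * w ^ 2 := by
      rw [hb]
      push_cast
      field_simp
    rw [h2, e3, ← e3, ← pow_mul, ha]
    push_cast
    rw [div_pow, div_pow, pow_add, pow_add]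
    field_simp
  · exact (hgd.comp (differentiable_id.const_mul (b : ℂ))).const_mul (a : ℂ)
  · rw [mul_zero]
    exact mul_ne_zero (by exact_mod_cast ha0.ne') hg0
  · intro z
    rw [map_mul, Complex.conj_ofReal, ← hgc, map_mul, Complex.conj_ofReal]
  · set m1 : ℝ := max b 1 with hm1
    have hm10 : 1 ≤ m1 := le_max_right _ _
    refine ⟨|Real.log a| + |K0| * m1 ^ (3 / 4 : ℝ), fun z => ?_⟩
    have hz0 : 0 ≤ ‖z‖ := norm_nonneg z
    rw [norm_mul, Complex.norm_real, Real.norm_of_nonneg ha0.le]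
    have h1 : a ≤ Real.exp |Real.log a| := by
      conv_lhs => rw [← Real.exp_log ha0]
      exact Real.exp_le_exp.2 (le_abs_self _)
    have h2 : ‖g0 ((b : ℂ) * z)‖ ≤ Real.exp (|K0| * m1 ^ (3 / 4 : ℝ) * (1 + ‖z‖) ^ (3 / 4 : ℝ)) := by
      refine (hK0 _).trans (Real.exp_le_exp.2 ?_)
      have h3 : 1 + ‖(b : ℂ) * z‖ ≤ m1 * (1 + ‖z‖) := by
        rw [norm_mul, Complex.norm_real, Real.norm_of_nonneg hb0.le]
        have : b ≤ m1 := le_max_left _ _
        nlinarith
      calc K0 * (1 + ‖(b : ℂ) * z‖) ^ (3 / 4 : ℝ) ≤ |K0| * (1 + ‖(b : ℂ) * z‖) ^ (3 / 4 : ℝ) := by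
            gcongr
            exact le_abs_self K0
        _ ≤ |K0| * (m1 * (1 + ‖z‖)) ^ (3 / 4 : ℝ) := by gcongr
        _ = _ := by rw [Real.mul_rpow (by linarith) (by linarith)]; ring
    have h4 : (1 : ℝ) ≤ (1 + ‖z‖) ^ (3 / 4 : ℝ) := Real.one_le_rpow (by linarith) (by norm_num)
    calc a * ‖g0 ((b : ℂ) * z)‖ ≤ Real.exp |Real.log a| *
          Real.exp (|K0| * m1 ^ (3 / 4 : ℝ) * (1 + ‖z‖) ^ (3 / 4 : ℝ)) := by gcongr
      _ = Real.exp (|Real.log a| + |K0| * m1 ^ (3 / 4 : ℝ) * (1 + ‖z‖) ^ (3 / 4 : ℝ)) := by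
          rw [Real.exp_add]
      _ ≤ _ := by
          apply Real.exp_le_exp.2
          rw [add_mul]
          have : |Real.log a| ≤ |Real.log a| * (1 + ‖z‖) ^ (3 / 4 : ℝ) :=
            le_mul_of_one_le_right (abs_nonneg _) h4
          linarith

end Pool.Agent.TH99.LI
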